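import Pool.Agent.W_eea520_n.Fin
import Pool.Agent.W_eea520_h3.Asm
import Pool.Agent.W_eea520h_h51.HD2

set_option autoImplicit false

namespace Pool.Agent.Results.MP_eea520_nt.EdgeGSp

open Pool.Agent.EEA520 Pool.Agent.EEAN Pool.Agent.EEAC Pool.Agent.EEAH

theorem result : ∀ n : ℕ, 1 ≤ n → (∃ R : ℕ, ∀ π : GSys n, Tempered π →
      (∀ (μ : Fin n → ℤ) (m : Wt n →₀ ℤ), IsIrr 0 μ m → μ ≠ 0 → (∀ i, μ i ≤ R) → PoleOrder π m 1 0) →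
      (∀ M : ℕ, (∀ (μ : Fin n → ℤ) (m : Wt n →₀ ℤ), IsIrr 0 μ m → (∀ i, μ i ≤ M + R) →
          MeroAt π m 1) →
        ∃ e : (Fin n → ℤ) → ℤ, SignType e ∧ (∀ x : Fin n → ℤ, x ≠ 0 → (∀ i, |x i| ≤ R) → e x = 0) ∧
          (∀ (μ : Fin n → ℤ) (m : Wt n →₀ ℤ), IsIrr 0 μ m → (∀ i, μ i ≤ M) →
            PoleOrder π m 1 (ordE (fun w => e w.2) 0 μ)) ∧
          ((∃ x : Fin n → ℤ, x ≠ 0 ∧ (∀ i, |x i| ≤ M) ∧ e x ≠ 0) →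
            ∀ (μ : Fin n → ℤ) (m : Wt n →₀ ℤ), IsIrr 0 μ m →
              DirMean (fun p => (trc π m p).re) (ordE (fun w => e w.2) 0 μ))) ∧
      ∀ E : AddSubgroup ℝ, (∀ (k : ℤ) (μ : Fin n → ℤ) (m : Wt n →₀ ℤ), IsIrr k μ m →
          ∀ t ∈ E, MeroAt π m (pt t)) →
        ∃ e : Wt n × ℝ → ℤ, IsSign e ∧ (∀ t, IsInv fun w => e (w, t)) ∧
          SignType (fun x => e ((0, x), 0)) ∧
          (∀ x : Fin n → ℤ, x ≠ 0 → (∀ i, |x i| ≤ R) → e ((0, x), 0) = 0) ∧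
          (∀ x t, e ((0, x), t) ≠ 0 → t = 0) ∧
          (∀ (k : ℤ) (μ : Fin n → ℤ) (m : Wt n →₀ ℤ), IsIrr k μ m → ∀ t ∈ E,
            PoleOrder π m (pt t) (ordE (fun w => e (w, t)) k μ)) ∧
          (∀ w t, e (w, t) ≠ 0 →
            DirMean (fun p => (((π p).ev w : ℂ) * ((p : ℕ) : ℂ) ^ (-(t * Complex.I))).re) (e (w, t))) ∧
          ((∀ x : Fin n → ℤ, x ≠ 0 → e ((0, x), 0) = 0) →
            ∀ (k : ℤ) (μ : Fin n → ℤ) (m : Wt n →₀ ℤ), IsIrr k μ m → (¬ ∀ i, 2 * μ i = k) →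
              ∀ t ∈ E, PoleOrder π m (pt t) 0) ∧
          (E = ⊤ → ∀ (μ : Fin n → ℤ) (m : Wt n →₀ ℤ), IsIrr 0 μ m →
            NatMean (fun p => (trc π m p).re) (ordE (fun w => e (w, 0)) 0 μ))) ∧
    (∀ e : (Fin n → ℤ) → ℤ, SignType e →
      (∀ x : Fin n → ℤ, x ≠ 0 → (∀ i, |x i| ≤ 2 * n - 1) → e x = 0) →
      ∃ π : GSys n, Tempered π ∧ (∀ p, (π p).c ^ 2 * ∏ i, (π p).x i = 1) ∧
        (∀ m : Wt n →₀ ℤ, IsCharacter m → Continues π m) ∧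
        ∀ (μ : Fin n → ℤ) (m : Wt n →₀ ℤ), IsIrr 0 μ m → ∀ t : ℝ,
          PoleOrder π m (pt t) (if t = 0 then ordE (fun w => e w.2) 0 μ else 0)) ∧
    ∀ π : GSys n, Tempered π →
      (∀ (m : Wt n →₀ ℤ) (k : ℤ), Continues π m → PoleOrder π (adams m) 1 k → Odd k →
        NoSaving π m) ∧
      ((∀ (μ : Fin n → ℤ) (m : Wt n →₀ ℤ), IsIrr 0 μ m → μ ≠ 0 → PoleOrder π m 1 0) →
        ∀ k : ℤ, k = 0 ∨ (∀ p, (π p).c ^ 2 * ∏ i, (π p).x i = 1) →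
          ∀ (μ : Fin n → ℤ) (m : Wt n →₀ ℤ), IsIrr k μ m → Continues π m → NoSaving π m) := by
  intro n hn
  obtain ⟨R1, h1⟩ := finiteN2 n
  obtain ⟨R2, h2⟩ := lineN n
  refine ⟨⟨max R1 R2, fun π hπ h => ⟨fun M hM => ?_, fun E hE => ?_⟩⟩, fun e he h => realizeCt he h,
    fun π hπ => ⟨fun m k h3 h4 h5 => half hπ h3 h4 h5, fun hST k hk μ m hm hc => ?_⟩⟩
  · exact h1 _ (le_max_left _ _) π hπ h M hM
  · exact h2 _ (le_max_right _ _) π hπ h E hE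
  · rcases hk with rfl | hε
    · obtain ⟨l, h3, h4⟩ := odd_adams hπ hST hm
      exact half hπ hc h4 h3
    · obtain ⟨l, h3, h4⟩ := odd_adams2 hπ hε hST hm
      exact half hπ hc h4 h3

end Pool.Agent.Results.MP_eea520_nt.EdgeGSp
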