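import Pool.Agent.W_eea520_L.Fip99

set_option autoImplicit false

namespace Pool.Agent.Results.MP_eea520_nt.EdgeLaws

open Pool.Agent.EEA520 Pool.Agent.EEAN Pool.Agent.EEAL

theorem result (n : ℕ) :
    -- all twists
    (∀ π : GSys n, Tempered π → ∀ (X : Type) [AddCommGroup X] (χ : X → Pr → ℂ), IsTwist χ →
      (∀ m, IsCharacter m → ∀ a, MeroT π m (χ a)) →
      ∃ c : Wt n × X → ℤ, OrdersT π χ c ∧ PosDef c ∧ (∀ g w a, c (wact g w, a) = c (w, a)) ∧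
        (∀ w a, ((Finset.univ.filter fun g : Weyl n => wact g w = w).card : ℤ) ∣ c (w, a)) ∧
        (∃ (r : ℕ) (f : Fin r → Wt n × X → ℤ) (H : Fin r → AddSubgroup (Wt n × X)),
          (∀ i, PosDef (f i) ∧ FinMod (f i) (H i)) ∧ ∀ x, c x = ∑ i, f i x) ∧
        ((∀ a, a ≠ 0 → c (0, a) = 0) →
          ∃ X₀ : AddSubgroup X, X₀.FG ∧ ∀ w, ∀ a, a ∉ X₀ → c (w, a) = 0)) ∧
    -- the twists by `p ^ (-i t)`
    (∀ (ε : Prop) (E : AddSubgroup ℝ),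
      (∀ π : GSys n, Tempered π → (∀ m, IsCharacter m → ∀ t ∈ E, MeroAt π m (pt t)) →
        ∃ c : Wt n × ℝ → ℤ, (∀ w, ∀ t, t ∉ E → c (w, t) = 0) ∧ Orders π E c) ∧
      ∀ c : Wt n × ℝ → ℤ, (∀ w, ∀ t, t ∉ E → c (w, t) = 0) → List.TFAE [
        ∃ π : GSys n, Tempered π ∧ (ε → ∀ p, (π p).c ^ 2 * ∏ i, (π p).x i = 1) ∧ Orders π E c,
        ∃ π : GSys n, Tempered π ∧ (ε → ∀ p, (π p).c ^ 2 * ∏ i, (π p).x i = 1) ∧
          (∀ m, IsCharacter m → Continues π m) ∧ Orders π ⊤ c ∧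
          ∀ w, (∀ t : ℝ, t ≠ 0 → c (w, t) = 0) →
            NatMean (fun p => ∑ g : Weyl n, ((π p).ev (wact g w) : ℂ).re) (c (w, 0)),
        PosDef c ∧ Normal ε c,
        (∃ (r : ℕ) (f : Fin r → Wt n × ℝ → ℤ) (H : Fin r → AddSubgroup (Wt n × ℝ)),
          (∀ i, PosDef (f i) ∧ FinMod (f i) (H i)) ∧ ∀ x, c x = ∑ i, f i x) ∧ Normal ε c]) ∧
    -- finitely many Euler products at finitely many points
    ∀ (ε : Prop) (M : ℕ) (T : Finset ℝ), ∃ (R : ℕ) (S : Finset ℝ),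
      (∀ t ∈ S, t ∈ AddSubgroup.closure (T : Set ℝ)) ∧ ∀ π : GSys n, Tempered π →
      (ε → ∀ p, (π p).c ^ 2 * ∏ i, (π p).x i = 1) →
      (∀ m : Wt n →₀ ℤ, IsCharacter m → (∀ w, m w ≠ 0 → |w.1| ≤ R ∧ ∀ i, |w.2 i| ≤ R) →
        ∀ t ∈ S, MeroAt π m (pt t)) →
      ∃ π' : GSys n, Tempered π' ∧ (ε → ∀ p, (π' p).c ^ 2 * ∏ i, (π' p).x i = 1) ∧
        (∀ m, IsCharacter m → Continues π' m) ∧
        (∀ m, IsCharacter m → ∀ t : ℝ, t ∉ AddSubgroup.closure (T : Set ℝ) →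
          PoleOrder π' m (pt t) 0) ∧
        ∀ m : Wt n →₀ ℤ, IsCharacter m → (∀ w, m w ≠ 0 → |w.1| ≤ M ∧ ∀ i, |w.2 i| ≤ M) →
          ∀ t ∈ T, ∃ k : ℤ, PoleOrder π m (pt t) k ∧ PoleOrder π' m (pt t) k := by
  refine ⟨fun π hπ X _ χ hχ h => ?_, fun ε E =>
    ⟨fun _ hπ h => exists_orders hπ h, fun c hE => lawG n ε E c hE⟩,
    fun ε M T => fin_points n ε M T⟩
  obtain ⟨c, h1, h2, h3, h4, h5⟩ := law_twist hπ hχ h
  refine ⟨c, h1, h2, h3, h4, h5, fun h0 => ?_⟩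
  obtain ⟨X₀, h6, h7⟩ := fg_support h0 h5
  exact ⟨X₀, h6, fun w a ha => by
    by_contra hne
    exact ha (h7 w a hne)⟩

end Pool.Agent.Results.MP_eea520_nt.EdgeLaws
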