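import Pool.Agent.W_eea520_G.S4
import Pool.Agent.W_eea520_c.RealC1

set_option autoImplicit false

namespace Pool.Agent.Results.MP_eea520_nt.MeromorphicEdge

open Pool.Agent.EEA520 Pool.Agent.EEAG1

theorem result :
    (∀ π : GSys 1, Tempered π → PoleOrder π (symdet 2 (-1)) 1 0 →
      (∀ E : AddSubgroup ℝ, (∀ (k : ℕ) (j : ℤ), ∀ t ∈ E, MeroAt π (symdet k j) (pt t)) →
        ∃ c : ℤ → ℤ, (c = stSeq ∨ c = cmSeq ∨ FinType c) ∧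
          (∀ a : ℕ, ∀ t ∈ E,
            PoleOrder π (symdet (2 * a) (-a)) (pt t) (if t = 0 then adOrder c a else 0)) ∧
          Moments π c ∧ (E = ⊤ → NatMoments π c) ∧
          (c = stSeq → (∀ k : ℕ, 1 ≤ k → ∀ (j : ℤ), ∀ t ∈ E, PoleOrder π (symdet k j) (pt t) 0) ∧
            TraceLaw π satoTate ∧ (E = ⊤ → NatLaw π satoTate)) ∧
          (c = cmSeq → (∀ k : ℕ, Odd k → ∀ (j : ℤ), ∀ t ∈ E, PoleOrder π (symdet k j) (pt t) 0) ∧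
            TraceLaw π cmLaw ∧ (E = ⊤ → NatLaw π cmLaw))) ∧
      ∀ M : ℕ, 9 ≤ M → (∀ a : ℕ, a ≤ M → MeroAt π (symdet (2 * a) (-a)) 1) →
        ∃ c : ℤ → ℤ, (c = stSeq ∨ c = cmSeq ∨ (FinType c ∧ Moments π c)) ∧
          ∀ a : ℕ, a < M → PoleOrder π (symdet (2 * a) (-a)) 1 (adOrder c a)) ∧
    (∀ c : ℤ → ℤ, FinType c → c 2 = 0 → c 3 = 0 → c 4 = 0 → ShortType c) ∧
    ∀ c : ℤ → ℤ, c = stSeq ∨ c = cmSeq ∨ FinType c →
      ∃ π : GSys 1, Tempered π ∧ (∀ p, (π p).nu = 1) ∧ PoleOrder π (symdet 2 (-1)) 1 0 ∧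
        Moments π c ∧ NatMoments π c ∧
        ∀ m : Wt 1 →₀ ℤ, IsCharacter m → Continues π m :=
  ⟨fun _ hπ had => ⟨fun _ h => lineB hπ had h, fun _ hM h => finiteA hπ had hM h⟩,
    fun _ hc h2 h3 h4 => short_of hc h2 h3 h4, fun _ hc => Pool.Agent.EEAC.occursC hc⟩

end Pool.Agent.Results.MP_eea520_nt.MeromorphicEdge
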